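import Pool.Agent.Lib.MP_19f6dc_an.Params
import Pool.Agent.Lib.MP_19f6dc_an.CaseZero
import Pool.Agent.Lib.MP_19f6dc_an.DegenFinal

/-!
# The capacitary lower endpoint for Mobius de Rham measures: full determination

For trapping parameters `(λ, γ, q)` every `d₀`-polar Borel set is `μ_f`-null, except exactly when
`λ > 1`, `q (λ - 1) = λ (γ - 1)` and `|1/γ - 1/2| ≤ |1/λ - 1/2|`.
-/

set_option autoImplicit false

open MeasureTheory Set Filter
open scoped ENNReal

namespace Pool.Agent.Results.MP_19f6dc_an.Determination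

open Pool.Agent.Lib.MP_19f6dc_an

variable {lam gam q : ℝ}

theorem T0_eq (hlam : 1 < lam) (y : ℝ) : T0 lam gam y =
    (gam - lam) / (lam - 1) + 1 / lam * (y - (gam - lam) / (lam - 1)) := by
  have h1 : lam - 1 ≠ 0 := by linarith [sub_pos.mpr hlam]
  have h2 : lam ≠ 0 := by linarith
  unfold T0
  field_simp
  ring

theorem T1_eq {y : ℝ} (hy : 0 < y + gam) : T1 gam q y =
    (q - gam) + (gam - 1) / (y + gam) * (y - (q - gam)) := by
  unfold T1
  field_simp
  ring

/-- a convex step towards `r` stays in the interval -/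
theorem step_mem {a b y r κ : ℝ} (hy : y ∈ Icc a b) (hr : r ∈ Icc a b) (hκ0 : 0 ≤ κ)
    (hκ1 : κ ≤ 1) : r + κ * (y - r) ∈ Icc a b := by
  have e : r + κ * (y - r) = (1 - κ) * r + κ * y := by ring
  rw [e]
  constructor
  · nlinarith [hy.1, hr.1, mul_nonneg hκ0 (sub_nonneg.mpr hy.1),
      mul_nonneg (sub_nonneg.mpr hκ1) (sub_nonneg.mpr hr.1)]
  · nlinarith [hy.2, hr.2, mul_nonneg hκ0 (sub_nonneg.mpr hy.2),
      mul_nonneg (sub_nonneg.mpr hκ1) (sub_nonneg.mpr hr.2)]

/-- a strict convex step between two different points of the interval has negative weight -/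
theorem step_WW_neg {a b y r κ : ℝ} (hy : y ∈ Icc a b) (hr : r ∈ Icc a b) (hne : y ≠ r)
    (hκ0 : 0 < κ) (hκ1 : κ < 1) : WW a b (r + κ * (y - r)) < 0 := by
  unfold WW
  rw [neg_lt_zero]
  have e1 : r + κ * (y - r) - a = (1 - κ) * (r - a) + κ * (y - a) := by ring
  have e2 : b - (r + κ * (y - r)) = (1 - κ) * (b - r) + κ * (b - y) := by ring
  rw [e1, e2]
  have h1 : 0 ≤ r - a := sub_nonneg.mpr hr.1
  have h2 : 0 ≤ y - a := sub_nonneg.mpr hy.1
  have h3 : 0 ≤ b - r := sub_nonneg.mpr hr.2
  have h4 : 0 ≤ b - y := sub_nonneg.mpr hy.2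
  have h5 : 0 < 1 - κ := by linarith
  apply mul_pos
  · rcases lt_or_gt_of_ne hne with h | h
    · have : 0 < r - a := by linarith
      have := mul_pos h5 this
      have := mul_nonneg hκ0.le h2
      linarith
    · have : 0 < y - a := by linarith
      have := mul_pos hκ0 this
      have := mul_nonneg h5.le h1
      linarith
  · rcases lt_or_gt_of_ne hne with h | h
    · have : 0 < b - y := by linarith
      have := mul_pos hκ0 this
      have := mul_nonneg h5.le h3
      linarith
    · have : 0 < b - r := by linarith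
      have := mul_pos h5 this
      have := mul_nonneg hκ0.le h4
      linarith

theorem zero_mem : (0:ℝ) ∈ Icc (aR lam gam q) (bR lam gam q) :=
  ⟨min_le_left _ _, le_max_left _ _⟩

theorem r0_mem : (gam - lam) / (lam - 1) ∈ Icc (aR lam gam q) (bR lam gam q) :=
  ⟨(min_le_right _ _).trans (min_le_left _ _), (le_max_left _ _).trans (le_max_right _ _)⟩

theorem r1_mem : q - gam ∈ Icc (aR lam gam q) (bR lam gam q) :=
  ⟨(min_le_right _ _).trans (min_le_right _ _), (le_max_right _ _).trans (le_max_right _ _)⟩

theorem aR_gt (hlam : 1 < lam) (hgam : 1 < gam) (hq : gam - 1 < q) : -1 < aR lam gam q := by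
  unfold aR
  refine lt_min (by norm_num) (lt_min ?_ (by linarith))
  rw [lt_div_iff₀ (by linarith)]
  linarith

/-- Value of `P0` at the common fixed point. -/
theorem P0_r (hlam : 1 < lam) (hgam : 1 < gam) :
    P0 gam ((gam - lam) / (lam - 1)) = 1 / lam := by
  have h1 : lam - 1 ≠ 0 := by linarith [sub_pos.mpr hlam]
  have h2 : lam ≠ 0 := by linarith
  have h3 : gam - 1 ≠ 0 := by linarith [sub_pos.mpr hgam]
  unfold P0
  have e1 : (gam - lam) / (lam - 1) + 1 = (gam - 1) / (lam - 1) := by field_simp; ring
  have e2 : (gam - lam) / (lam - 1) + gam = lam * (gam - 1) / (lam - 1) := by field_simp; ring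
  rw [e1, e2]
  field_simp

theorem P0_zero (hgam : 1 < gam) : P0 gam 0 = 1 / gam := by unfold P0; simp

theorem inv_mem {x : ℝ} (hx : 1 < x) : 1 / x ∈ Icc (0:ℝ) 1 :=
  ⟨by positivity, by rw [div_le_one (by linarith)]; exact hx.le⟩

/-- the two fixed points coincide iff the algebraic relation holds -/
theorem fixed_iff (hlam : 1 < lam) :
    (gam - lam) / (lam - 1) = q - gam ↔ q * (lam - 1) = lam * (gam - 1) := by
  have h1 : lam - 1 ≠ 0 := by linarith [sub_pos.mpr hlam]
  rw [div_eq_iff h1]
  constructor <;> intro h <;> linarith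

/-- The degenerate condition. -/
def Deg (lam gam q : ℝ) : Prop :=
  1 < lam ∧ q * (lam - 1) = lam * (gam - 1) ∧ |1 / gam - 1 / 2| ≤ |1 / lam - 1 / 2|

/-- an extreme point of `[α,β]` where the minimum is attained and that is fixed by both maps
gives the degenerate condition -/
theorem deg_of_extreme (hlam : 1 < lam) (hgam : 1 < gam) (hq : gam - 1 ≤ q) {e : ℝ}
    (he0 : e = (gam - lam) / (lam - 1)) (he1 : e = q - gam)
    (hmin : h (P0 gam e) ≤ theta0 lam gam q) : Deg lam gam q := by
  refine ⟨hlam, (fixed_iff hlam).mp (he0.symm.trans he1), ?_⟩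
  have h1 := theta0_le_real hlam hgam hq (zero_mem (lam := lam) (gam := gam) (q := q))
  rw [he0, P0_r hlam hgam] at hmin
  rw [P0_zero hgam] at h1
  exact (h_le_iff (inv_mem hlam) (inv_mem hgam)).mp (hmin.trans h1)

/-- the non-degeneracy alternative at every state -/
theorem nondeg_alternative (hlam : 1 < lam) (hgam : 1 < gam) (hq : gam - 1 < q)
    (hdeg : ¬ Deg lam gam q) {y : ℝ} (hy : y ∈ Icc (aR lam gam q) (bR lam gam q)) :
    theta0 lam gam q < h (P0 gam y) ∨ 0 < WW (aR lam gam q) (bR lam gam q) y -
      (P0 gam y * WW (aR lam gam q) (bR lam gam q) (T0 lam gam y) +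
        P1 gam y * WW (aR lam gam q) (bR lam gam q) (T1 gam q y)) := by
  set a := aR lam gam q with ha
  set b := bR lam gam q with hb
  have hagt : -1 < a := aR_gt hlam hgam hq
  have hygt : -1 < y := by linarith [hy.1]
  have hyg : 0 < y + gam := by linarith
  by_cases hint : a < y ∧ y < b
  · left
    have h1 := theta0_le_real (y := a) hlam hgam hq.le ⟨le_rfl, hy.1.trans hy.2⟩
    have h2 := theta0_le_real (y := b) hlam hgam hq.le ⟨hy.1.trans hy.2, le_rfl⟩
    have h3 := h_interior (P0_mem hgam hagt.le) (P0_mem hgam (by linarith [hint.1, hint.2]))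
      (P0_lt hgam hagt.le hint.1) (P0_lt hgam hygt.le hint.2)
    exact lt_of_le_of_lt (le_min h1 h2) h3
  · by_cases hH : theta0 lam gam q < h (P0 gam y)
    · exact Or.inl hH
    · right
      have hyab : y = a ∨ y = b := by
        by_contra hcon
        push Not at hcon
        exact hint ⟨lt_of_le_of_ne hy.1 (Ne.symm hcon.1), lt_of_le_of_ne hy.2 hcon.2⟩
      have hW0 : WW a b y = 0 := by
        unfold WW
        rcases hyab with h | h <;> rw [h] <;> simp
      have hκ0 : 0 < 1 / lam := by positivity
      have hκ1 : 1 / lam < 1 := by rw [div_lt_one (by linarith)]; exact hlam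
      have hκ0' : 0 < (gam - 1) / (y + gam) := div_pos (by linarith) hyg
      have hκ1' : (gam - 1) / (y + gam) < 1 := by rw [div_lt_one hyg]; linarith
      have hT0 : T0 lam gam y ∈ Icc a b := by
        rw [T0_eq hlam]
        exact step_mem hy r0_mem hκ0.le hκ1.le
      have hT1 : T1 gam q y ∈ Icc a b := by
        rw [T1_eq hyg]
        exact step_mem hy r1_mem hκ0'.le hκ1'.le
      have hp0 := P0_pos hgam hygt
      have hp1 := P1_pos hgam hygt
      have hw0 := WW_nonpos hT0
      have hw1 := WW_nonpos hT1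
      by_cases hr0 : y = (gam - lam) / (lam - 1)
      · by_cases hr1 : y = q - gam
        · exact absurd (deg_of_extreme hlam hgam hq.le hr0 hr1 (not_lt.mp hH)) hdeg
        · have : WW a b (T1 gam q y) < 0 := by
            rw [T1_eq hyg]
            exact step_WW_neg hy r1_mem hr1 hκ0' hκ1'
          have h1 : P1 gam y * WW a b (T1 gam q y) < 0 := mul_neg_of_pos_of_neg hp1 this
          have h2 : P0 gam y * WW a b (T0 lam gam y) ≤ 0 :=
            mul_nonpos_of_nonneg_of_nonpos hp0.le hw0
          linarith
      · have : WW a b (T0 lam gam y) < 0 := by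
          rw [T0_eq hlam]
          exact step_WW_neg hy r0_mem hr0 hκ0 hκ1
        have h1 : P0 gam y * WW a b (T0 lam gam y) < 0 := mul_neg_of_pos_of_neg hp0 this
        have h2 : P1 gam y * WW a b (T1 gam q y) ≤ 0 :=
          mul_nonpos_of_nonneg_of_nonpos hp1.le hw1
        linarith

/-- in the degenerate case the minimal entropy is `h(1/λ)` -/
theorem theta0_deg (hgam : 1 < gam) (hq : gam - 1 ≤ q) (hdeg : Deg lam gam q) :
    theta0 lam gam q = h (1 / lam) := by
  obtain ⟨hlam, hrel, habs⟩ := hdeg
  have hr : (gam - lam) / (lam - 1) = q - gam := (fixed_iff hlam).mpr hrel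
  have hh : h (1 / lam) ≤ h (1 / gam) := (h_le_iff (inv_mem hlam) (inv_mem hgam)).mpr habs
  have hrgt : -1 < (gam - lam) / (lam - 1) := by
    rw [lt_div_iff₀ (by linarith)]; linarith
  apply le_antisymm
  · have := theta0_le_real hlam hgam hq (r0_mem (lam := lam) (gam := gam) (q := q))
    rwa [P0_r hlam hgam] at this
  · refine le_theta0_real hlam fun y hy => ?_
    have hmin : min (h (1 / gam)) (h (1 / lam)) = h (1 / lam) := min_eq_right hh
    unfold aR bR at hy
    rw [← hr, min_self, max_self] at hy
    rw [← hmin, ← P0_zero hgam, ← P0_r hlam hgam]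
    rcases le_total 0 ((gam - lam) / (lam - 1)) with h0 | h0
    · rw [min_eq_left h0, max_eq_right h0] at hy
      exact h_between (P0_mem hgam (by norm_num)) (P0_mem hgam hrgt.le)
        (P0_le hgam (by norm_num) hy.1) (P0_le hgam (by linarith [hy.1]) hy.2)
    · rw [min_eq_right h0, max_eq_left h0] at hy
      rw [min_comm]
      exact h_between (P0_mem hgam hrgt.le) (P0_mem hgam (by norm_num))
        (P0_le hgam hrgt.le hy.1) (P0_le hgam (by linarith [hy.1]) hy.2)

/-- **Determination.**  Let `(λ, γ, q)` be trapping parameters (`λ ≥ 1`, `γ > 1`, `q ≥ γ - 1`), `f` the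
Mobius de Rham function with these parameters and `μ` the probability measure on `[0,1]` with
`f(x) = μ([0,x))`.  Then every `d₀`-polar Borel set `K ⊆ [0,1]` satisfies `μ(K) = 0` if and only if it
is not the case that `λ > 1`, `q(λ-1) = λ(γ-1)` and `|1/γ - 1/2| ≤ |1/λ - 1/2|` hold together. -/
theorem result (lam gam q : ℝ) (hlam : 1 ≤ lam) (hgam : 1 < gam) (hq : gam - 1 ≤ q)
    (f : ℝ → ℝ) (hf : IsDeRham lam gam q f) (μ : Measure ℝ) (hμ : IsDeRhamMeasure f μ) :
    (∀ K : Set ℝ, MeasurableSet K → K ⊆ Icc 0 1 → IsPolar (d0 lam gam q) K → μ K = 0) ↔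
      ¬ (1 < lam ∧ q * (lam - 1) = lam * (gam - 1) ∧
        |1 / gam - 1 / 2| ≤ |1 / lam - 1 / 2|) := by
  have hprob := hμ.prob
  have hlam0 : 0 < lam := by linarith
  have hq0 : 0 < q := by linarith
  have hlog : 0 < Real.log 2 := Real.log_pos (by norm_num)
  change _ ↔ ¬ Deg lam gam q
  constructor
  · -- degenerate parameters fail
    intro hP hdeg
    have hθ := theta0_deg hgam hq hdeg
    have hdeg' := hdeg
    obtain ⟨hlam1, hrel, habs⟩ := hdeg'
    by_cases hl2 : lam = 2
    · -- `λ = 2` forces `γ = 2`, `d₀ = 1`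
      have hd : d0 lam gam q = 1 := by
        unfold d0
        rw [hθ, hl2, h_eq_binEntropy, show (1:ℝ) / 2 = 2⁻¹ by norm_num, Real.binEntropy_two_inv,
          div_self hlog.ne']
      have h1 := hP (Icc 0 1) measurableSet_Icc le_rfl (Or.inl hd)
      have h2 : μ univ = 0 := by
        rw [← union_compl_self (Icc (0:ℝ) 1)]
        exact measure_union_null h1 hμ.carried
      rw [measure_univ] at h2
      exact one_ne_zero h2
    · have hlt : h (1 / lam) < Real.log 2 := by
        rw [h_eq_binEntropy, Real.binEntropy_lt_log_two]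
        intro h1
        apply hl2
        field_simp at h1
        linarith
      have hd1 : d0 lam gam q < 1 := by
        unfold d0
        rw [hθ, div_lt_one hlog]; exact hlt
      have hd0 : 0 ≤ d0 lam gam q := by
        unfold d0
        exact div_nonneg (theta0_nonneg hlam hgam hq) hlog.le
      obtain ⟨K, hKm, hKs, hKq, hKμ⟩ := degenerate_exists (θ := theta0 lam gam q)
        (s := d0 lam gam q) (τ := (1 - d0 lam gam q) / 2) hlam1 hl2 hgam hrel hf hμ
        (by
          rw [hθ]
          unfold h
          ring) (by linarith) (by ring) (by unfold d0; field_simp)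
      exact hKμ (hP K hKm hKs (Or.inr ⟨hd1, hKq⟩))
  · -- nondegenerate parameters
    intro hdeg K hK _ hpol
    by_contra hμK
    rcases eq_or_lt_of_le (theta0_nonneg hlam hgam hq) with hθ0 | hθ0
    · -- `θ₀ = 0`
      have hd : d0 lam gam q = 0 := by unfold d0; rw [← hθ0, zero_div]
      rcases hpol with h1 | ⟨_, h2⟩
      · rw [hd] at h1; exact zero_ne_one h1
      · rw [hd, sub_zero] at h2
        exact Qap_ne_zero (by norm_num) le_rfl μ (ae_finite_zero hlam hgam hq hf hμ) hK hμK h2
    · obtain ⟨hlam1, hq1⟩ := of_theta0_pos hlam hgam hq hθ0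
      have hagt := aR_gt hlam1 hgam hq1
      have hκ0 : 0 < 1 / lam := by positivity
      have hκ1 : 1 / lam < 1 := by rw [div_lt_one (by linarith)]; exact hlam1
      have hdecay := geom_decay (q := q) hlam0 hgam hq0 hagt zero_mem
        (fun y hy => by rw [T0_eq hlam1]; exact step_mem hy r0_mem hκ0.le hκ1.le)
        (fun y hy => by
          have hyg : 0 < y + gam := by linarith [hy.1]
          rw [T1_eq hyg]
          exact step_mem hy r1_mem (div_nonneg (by linarith) hyg.le)
            (by rw [div_le_one hyg]; linarith [hy.1]))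
        hθ0.le (fun y hy => theta0_le_real hlam1 hgam hq hy)
        (fun y hy => nondeg_alternative hlam1 hgam hq1 hdeg hy)
      have hae := ae_finite_of_decay hlam0 hgam hq0 hf hμ hdecay
      -- `d₀ < 1`
      have hd1 : d0 lam gam q < 1 := by
        unfold d0
        rw [div_lt_one hlog]
        by_contra hcon
        push Not at hcon
        have hhalf : ∀ y ∈ Icc (aR lam gam q) (bR lam gam q), P0 gam y = 2⁻¹ := by
          intro y hy
          have h1 := hcon.trans (theta0_le_real hlam1 hgam hq hy)
          rw [h_eq_binEntropy] at h1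
          exact Real.binEntropy_eq_log_two.mp (le_antisymm Real.binEntropy_le_log_two h1)
        have hinj : ∀ y ∈ Icc (aR lam gam q) (bR lam gam q), y = 0 := by
          intro y hy
          by_contra hne
          rcases lt_or_gt_of_ne hne with h1 | h1
          · have := P0_lt hgam (by linarith [hy.1]) h1
            rw [hhalf y hy, hhalf 0 zero_mem] at this
            exact lt_irrefl _ this
          · have := P0_lt hgam (by norm_num) h1
            rw [hhalf y hy, hhalf 0 zero_mem] at this
            exact lt_irrefl _ this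
        have e0 := hinj _ (r0_mem (lam := lam) (gam := gam) (q := q))
        have e1 := hinj _ (r1_mem (lam := lam) (gam := gam) (q := q))
        apply hdeg
        refine deg_of_extreme hlam1 hgam hq (e := 0) e0.symm e1.symm ?_
        refine le_trans ?_ hcon
        rw [h_eq_binEntropy]
        exact Real.binEntropy_le_log_two
      rcases hpol with h1 | ⟨_, h2⟩
      · exact hd1.ne h1
      · refine Qap_ne_zero (τ := (1 - d0 lam gam q) / 2) (by linarith) ?_ μ ?_ hK hμK h2
        · have : 0 ≤ d0 lam gam q := by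
            unfold d0; exact div_nonneg hθ0.le hlog.le
          linarith
        · have e : 1 - 2 * ((1 - d0 lam gam q) / 2) = theta0 lam gam q / Real.log 2 := by
            unfold d0; ring
          rw [e]
          exact hae

end Pool.Agent.Results.MP_19f6dc_an.Determination
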